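import Pool.Agent.H14.UNT.UNV

/-!
# A prime divisor is determined by its centre (UNQ)
-/

set_option autoImplicit false

namespace Pool.Agent.H14.UNT

open Polynomial Pool.Agent.H17.UN Pool.Agent.H62.UN

theorem pf_UNQ : T_UNQ := by
  intro hUNV k E _ _ _ A o o' h h' hc hc' hoo
  refine hUNV E o o' h h' fun x hx hox => ?_
  obtain ⟨a, ha, b, hb, hb0, hob, rfl⟩ := hc.loc x hx hox
  have ha0 : a ≠ 0 := by
    intro h1
    rw [h1, zero_div] at hx
    exact hx rfl
  have h1 := hc'.nn b hb
  have h2 : o' b = 0 := by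
    by_contra h3
    have h4 := hoo b hb (lt_of_le_of_ne h1 (Ne.symm h3))
    omega
  rw [val_div h' ha0 hb0, h2, sub_zero]
  exact hc'.nn a ha

end Pool.Agent.H14.UNT
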