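import Pool.Agent.H62.UN.Targets

/-!
# A normalised discrete valuation is determined by its valuation ring (UNV)
-/

set_option autoImplicit false

namespace Pool.Agent.H14.UNT

open Polynomial Pool.Agent.H17.UN Pool.Agent.H62.UN

section

variable {E : Type} [Field E] {o : E → ℤ}

theorem val_one (h : IsVal o) : o 1 = 0 := by
  have h1 := h.mul 1 1 one_ne_zero one_ne_zero
  rw [mul_one] at h1
  omega

theorem val_inv (h : IsVal o) {x : E} (hx : x ≠ 0) : o x⁻¹ = -o x := by
  have h1 := h.mul x x⁻¹ hx (inv_ne_zero hx)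
  rw [mul_inv_cancel₀ hx, val_one h] at h1
  omega

theorem val_div (h : IsVal o) {x y : E} (hx : x ≠ 0) (hy : y ≠ 0) : o (x / y) = o x - o y := by
  rw [div_eq_mul_inv, h.mul _ _ hx (inv_ne_zero hy), val_inv h hy]
  ring

theorem val_pow (h : IsVal o) {x : E} (hx : x ≠ 0) (n : ℕ) : o (x ^ n) = n * o x := by
  induction n with
  | zero => simp [val_one h]
  | succ n ih =>
    rw [pow_succ, h.mul _ _ (pow_ne_zero n hx) hx, ih]
    push_cast
    ring

theorem val_zpow (h : IsVal o) {x : E} (hx : x ≠ 0) (n : ℤ) : o (x ^ n) = n * o x := by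
  obtain ⟨m, rfl | rfl⟩ := n.eq_nat_or_neg
  · rw [zpow_natCast]
    exact val_pow h hx m
  · rw [zpow_neg, zpow_natCast, val_inv h (pow_ne_zero m hx), val_pow h hx]
    ring

end

theorem pf_UNV : T_UNV := by
  intro E _ o o' h h' hoo
  have h0 : ∀ x, x ≠ 0 → o x = 0 → o' x = 0 := by
    intro x hx hx0
    have h1 := hoo x hx hx0.ge
    have h2 := hoo x⁻¹ (inv_ne_zero hx) (by rw [val_inv h hx, hx0]; simp)
    rw [val_inv h' hx] at h2
    omega
  obtain ⟨w, hw⟩ := h.norm
  have hw0 : w ≠ 0 := by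
    intro h1
    rw [h1, h.zero] at hw
    omega
  have key : ∀ x, x ≠ 0 → o' x = o x * o' w := by
    intro x hx
    have h1 : o (x * w ^ (-o x)) = 0 := by
      rw [h.mul _ _ hx (zpow_ne_zero _ hw0), val_zpow h hw0, hw]
      ring
    have h2 := h0 _ (mul_ne_zero hx (zpow_ne_zero _ hw0)) h1
    rw [h'.mul _ _ hx (zpow_ne_zero _ hw0), val_zpow h' hw0] at h2
    linarith
  have hw' : 0 ≤ o' w := hoo w hw0 (by omega)
  obtain ⟨a, ha⟩ := h'.norm
  have ha0 : a ≠ 0 := by
    intro h1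
    rw [h1, h'.zero] at ha
    omega
  have h1 := key a ha0
  rw [ha] at h1
  have h2 : o' w = 1 := by
    have h3 : o' w ∣ 1 := ⟨o a, by rw [h1]; ring⟩
    exact Int.eq_one_of_dvd_one hw' h3
  funext x
  by_cases hx : x = 0
  · rw [hx, h.zero, h'.zero]
  · rw [key x hx, h2, mul_one]

end Pool.Agent.H14.UNT
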