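import Pool.Agent.H14.UNT.UNV

/-!
# Components with different signs are different (VDS)
-/

set_option autoImplicit false

namespace Pool.Agent.H14.UNT

open Polynomial Pool.Agent.H17.UN Pool.Agent.H62.UN

section

variable {E : Type} [Field E] {o : E → ℤ}

theorem ne_of_pos (h : IsVal o) {x : E} (hx : 0 < o x) : x ≠ 0 := by
  intro h0
  rw [h0, h.zero] at hx
  exact lt_irrefl _ hx

theorem val_neg (h : IsVal o) {x : E} (hx : x ≠ 0) : o (-x) = o x := by
  have h1 : o (-1) = 0 := by
    have h2 := h.mul (-1) (-1) (neg_ne_zero.mpr one_ne_zero) (neg_ne_zero.mpr one_ne_zero)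
    rw [neg_mul_neg, mul_one, val_one h] at h2
    omega
  have h2 := h.mul (-1) x (neg_ne_zero.mpr one_ne_zero) hx
  rw [neg_one_mul, h1] at h2
  omega

theorem val_sub_pos (h : IsVal o) {x y : E} (hx : 0 < o x) (hy : 0 < o y) (hxy : x - y ≠ 0) :
    0 < o (x - y) := by
  have hx0 := ne_of_pos h hx
  have hy0 := ne_of_pos h hy
  have h1 := h.add x (-y) hx0 (neg_ne_zero.mpr hy0) (by rwa [← sub_eq_add_neg])
  rw [val_neg h hy0, ← sub_eq_add_neg] at h1
  exact lt_of_lt_of_le (lt_min hx hy) h1

theorem not_common_root {k : Type} [Field k] {P Q : k[X]} (h : (P * Q).Separable) {a : k}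
    (hP : P.eval a = 0) (hQ : Q.eval a = 0) : False := by
  obtain ⟨u, w, huw⟩ := h.isCoprime
  have h1 := congrArg (Polynomial.eval a) huw
  rw [eval_add, eval_mul, eval_mul, hP, hQ, eval_one] at h1
  simp at h1

end

section

variable {k F : Type} [Field k] [Field F] [Algebra k F]

theorem const_ord {s y z : F} (v : PrimeDivisor (ch k s y z)) {c : k} (hc : c ≠ 0) :
    v.ord (algebraMap k F c) = 0 := by
  obtain ⟨i, hi⟩ := pd_ctr v
  have h1 := hi.nn _ ((ch k s y z i).algebraMap_mem c)
  have h2 := hi.nn _ ((ch k s y z i).algebraMap_mem c⁻¹)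
  have hc' : algebraMap k F c ≠ 0 := by
    rw [Ne, map_eq_zero]
    exact hc
  rw [map_inv₀, val_inv (pd_val v) hc'] at h2
  omega

theorem cb_z_ne {P Q : k[X]} {s y z : F} (h : CB P Q s y z) : z ≠ 0 := h.ind.ne_zero 1

theorem cb_s_ne {P Q : k[X]} {s y z : F} (h : CB P Q s y z) : s ≠ 0 := h.ind.ne_zero 0

end

theorem pf_VDS : F_VDS := by
  intro hV k F _ _ _ _ _ P Q s y z hCB v
  have hv := pd_val v
  have hdiff : ∀ {x x' : F} {c : k}, 0 < v.ord x → 0 < v.ord x' →
      x - x' = algebraMap k F c → c = 0 := by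
    intro x x' c hx hx' he
    by_contra hc
    have h0 := const_ord v hc
    have hne : x - x' ≠ 0 := by
      rw [he, Ne, map_eq_zero]
      exact hc
    have h1 := val_sub_pos hv hx hx' hne
    rw [he, h0] at h1
    exact lt_irrefl _ h1
  refine ⟨?_, ?_, ?_⟩
  · intro a a' ρ ρ' h h'
    have haa : a = a' := by
      have h1 := hdiff (x := s - algebraMap k F a) (x' := s - algebraMap k F a') (c := a' - a)
        (by rw [h.1]; norm_num) (by rw [h'.1]; norm_num) (by rw [map_sub]; ring)
      exact (sub_eq_zero.mp h1).symm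
    refine ⟨haa, ?_⟩
    subst haa
    rcases h.2 with ⟨h1, h2, h3⟩ | ⟨h1, h2, h3⟩
    · rcases h'.2 with ⟨h4, h5, h6⟩ | ⟨h4, h5, h6⟩
      · have h7 := hdiff (c := ρ' - ρ) h3 h6 (by rw [map_sub]; ring)
        exact (sub_eq_zero.mp h7).symm
      · exact (not_common_root hCB.sep h4 h1).elim
    · rcases h'.2 with ⟨h4, h5, h6⟩ | ⟨h4, h5, h6⟩
      · exact (not_common_root hCB.sep h1 h4).elim
      · by_contra hne
        have hc : ρ' - ρ ≠ 0 := fun h7 => hne (sub_eq_zero.mp h7).symm
        have hz := ((hV k F P Q s y z hCB v).1 a (by rw [h.1]; norm_num)).2.1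
        have he : (y - algebraMap k F ρ * z) - (y - algebraMap k F ρ' * z) =
            algebraMap k F (ρ' - ρ) * z := by
          rw [map_sub]
          ring
        have hc' : algebraMap k F (ρ' - ρ) ≠ 0 := by
          rw [Ne, map_eq_zero]
          exact hc
        have hne2 : (y - algebraMap k F ρ * z) - (y - algebraMap k F ρ' * z) ≠ 0 := by
          rw [he]
          exact mul_ne_zero hc' (cb_z_ne hCB)
        have h8 := val_sub_pos hv h3 h6 hne2
        rw [he, hv.mul _ _ hc' (cb_z_ne hCB), const_ord v hc, hz] at h8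
        exact lt_irrefl _ h8
  · intro ρ ρ' h h'
    have h7 := hdiff (c := ρ' - ρ) h.2.2 h'.2.2 (by rw [map_sub]; ring)
    exact (sub_eq_zero.mp h7).symm
  · intro a ρ ρ' h h'
    have h1 := h.1
    have h2 := h'.1
    by_cases ha : a = 0
    · rw [ha, map_zero, sub_zero, h2] at h1
      norm_num at h1
    · have ha' : algebraMap k F a ≠ 0 := by
        rw [Ne, map_eq_zero]
        exact ha
      have h3 : s - algebraMap k F a ≠ 0 := ne_of_pos hv (by rw [h1]; norm_num)
      have h4 := hv.add (s - algebraMap k F a) (algebraMap k F a) h3 ha'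
        (by rw [sub_add_cancel]; exact cb_s_ne hCB)
      rw [sub_add_cancel, h1, h2, const_ord v ha] at h4
      norm_num at h4

end Pool.Agent.H14.UNT
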