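import Pool.Agent.H14.UNT.VDS

/-!
# The components are unique (VUN)
-/

set_option autoImplicit false

namespace Pool.Agent.H14.UNT

open Polynomial Pool.Agent.H17.UN Pool.Agent.H62.UN

theorem pf_VUN : F_VUN := by
  intro hCHT hLVD hV k F _ _ _ _ _ P Q s y z hCB v v'
  obtain ⟨hc0, -, hc2, -⟩ := hCHT k F P Q s y z hCB
  have hv := pd_val v
  have hv' := pd_val v'
  refine ⟨?_, ?_⟩
  · intro a ρ h h'
    obtain ⟨-, hz, hctr⟩ := (hV k F P Q s y z hCB v).1 a (by rw [h.1]; norm_num)
    obtain ⟨-, hz', hctr'⟩ := (hV k F P Q s y z hCB v').1 a (by rw [h'.1]; norm_num)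
    have hsa : 0 < v.ord (s - algebraMap k F a) := by rw [h.1]; norm_num
    have hsa' : 0 < v'.ord (s - algebraMap k F a) := by rw [h'.1]; norm_num
    rcases h.2 with ⟨h1, h2, h3⟩ | ⟨h1, h2, h3⟩
    · rcases h'.2 with ⟨h4, h5, h6⟩ | ⟨h4, h5, h6⟩
      · have hρ : ρ ≠ 0 := by
          intro h0
          rw [h0] at h2
          exact not_common_root hCB.sep (h2.symm.trans (by ring)) h1
        obtain ⟨o, -, -, -, -, -, huni⟩ := hLVD k F P Q s y z hc0 a (C ρ)
          (by rwa [Ne, C_eq_zero]) (by rw [h1, ← h2]; simp)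
        have e1 : aeval z (C ρ) = algebraMap k F ρ := aeval_C z ρ
        rw [e1] at huni
        exact pd_ext ((huni v.ord hv hctr hsa h3).trans (huni v'.ord hv' hctr' hsa' h6).symm)
      · exact (not_common_root hCB.sep h4 h1).elim
    · rcases h'.2 with ⟨h4, h5, h6⟩ | ⟨h4, h5, h6⟩
      · exact (not_common_root hCB.sep h1 h4).elim
      · have hρ : ρ ≠ 0 := by
          intro h0
          rw [h0] at h2
          exact not_common_root hCB.sep h1 (h2.symm.trans (by ring))
        obtain ⟨o, -, -, -, -, -, huni⟩ := hLVD k F P Q s y z hc0 a (C ρ * X)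
          (mul_ne_zero (by rwa [Ne, C_eq_zero]) X_ne_zero)
          (by rw [h1, ← h2, mul_pow]; simp)
        have e1 : aeval z (C ρ * X) = algebraMap k F ρ * z := by
          rw [map_mul, aeval_C, aeval_X]
        rw [e1] at huni
        exact pd_ext ((huni v.ord hv hctr hsa h3).trans (huni v'.ord hv' hctr' hsa' h6).symm)
  · intro ρ h h'
    have hz0 := cb_z_ne hCB
    have hs0 := cb_s_ne hCB
    have hQ0 : Q ≠ 0 := by
      intro h0
      have := hCB.dQ
      rw [h0] at this
      simp at this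
    have hρ : ρ ≠ 0 := by
      intro h0
      have h1 := h.2.1
      rw [h0] at h1
      exact hQ0 (leadingCoeff_eq_zero.mp (h1.symm.trans (by ring)))
    have eP : (P.reflect 4).eval 0 = 0 := by
      rw [← coeff_zero_eq_eval_zero, coeff_reflect, revAt_le (by norm_num : 0 ≤ 4)]
      exact coeff_eq_zero_of_natDegree_lt (by rw [hCB.dP]; norm_num)
    have eQ : (Q.reflect 2).eval 0 = Q.leadingCoeff := by
      rw [← coeff_zero_eq_eval_zero, coeff_reflect, revAt_le (by norm_num : 0 ≤ 2),
        leadingCoeff, hCB.dQ]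
    obtain ⟨o, -, -, -, -, -, huni⟩ := hLVD k F _ _ _ _ _ hc2 0 (C ρ * X)
      (mul_ne_zero (by rwa [Ne, C_eq_zero]) X_ne_zero)
      (by rw [eP, eQ, ← h.2.1, mul_pow]; simp)
    have e1 : aeval (z / s) (C ρ * X) = algebraMap k F ρ * (z / s) := by
      rw [map_mul, aeval_C, aeval_X]
    rw [e1, map_zero, sub_zero] at huni
    have key : ∀ w : PrimeDivisor (ch k s y z), CmpInf Q ρ w → w.ord = o := by
      intro w hw
      have hw' := pd_val w
      obtain ⟨h1, h2, h3⟩ := (hV k F P Q s y z hCB w).2 (by rw [hw.1]; norm_num)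
      refine huni w.ord hw' h3 ?_ ?_
      · rw [val_inv hw' hs0, h1]
        norm_num
      · have e2 : y / s ^ 2 - algebraMap k F ρ * (z / s) =
            (z / s) * (y / (s * z) - algebraMap k F ρ) := by
          field_simp
        rw [e2, hw'.mul _ _ (div_ne_zero hz0 hs0) (ne_of_pos hw' hw.2.2), h2, zero_add]
        exact hw.2.2
    exact pd_ext ((key v h).trans (key v' h').symm)

end Pool.Agent.H14.UNT
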